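import Pool.Agent.Helper53.OB.Core
import Pool.Agent.Helper87.FK.Emb
import Pool.Agent.Helper87.FK.Iso
import Pool.Agent.Helper26.OB.Defs

/-!
# OB, block NF: Frobenius has the orbit lengths of `σ`
-/

set_option autoImplicit false

open NumberField Polynomial

namespace Pool.Agent.Helper53.OB

open Pool.Agent.Helper87.FK Pool.Agent.Helper26.OB

noncomputable section

section local'

variable {E : Type} [Field E] [NumberField E] {p : ℕ} [Fact p.Prime]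

/-- residues and norms -/
theorem norm_lt_iff (Q : Ideal (𝓞 E)) (hQ : Q.IsMaximal) (φ : E →+* PadicAlgCl p)
    (hφ : ∀ x ∈ Q, ‖φ (x : 𝓞 E)‖ < 1) (x : 𝓞 E) : ‖φ (x : E)‖ < 1 ↔ x ∈ Q := by
  refine ⟨fun h => ?_, hφ x⟩
  by_contra hx
  obtain ⟨y, i, hi, hyi⟩ := hQ.exists_inv hx
  have h1 : φ (y : E) * φ (x : E) + φ ((i : 𝓞 E) : E) = 1 := by
    rw [← map_mul, ← map_add, ← map_one φ]
    congr 1
    have := congrArg (algebraMap (𝓞 E) E) hyi
    simpa using this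
  have h2 := norm_le_one_of_ringOfIntegers φ y
  have h3 : ‖φ (y : E) * φ (x : E)‖ < 1 := by
    rw [norm_mul]
    calc ‖φ (y : E)‖ * ‖φ (x : E)‖ ≤ 1 * ‖φ (x : E)‖ := by gcongr
      _ < 1 := by rw [one_mul]; exact h
  have h4 : ‖φ (y : E) * φ (x : E) + φ ((i : 𝓞 E) : E)‖ < 1 :=
    lt_of_le_of_lt (IsUltrametricDist.norm_add_le_max _ _) (max_lt h3 (hφ i hi))
  rw [h1, norm_one] at h4
  exact lt_irrefl _ h4

theorem norm_eq_one (Q : Ideal (𝓞 E)) (hQ : Q.IsMaximal) (φ : E →+* PadicAlgCl p)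
    (hφ : ∀ x ∈ Q, ‖φ (x : 𝓞 E)‖ < 1) (x : 𝓞 E) (hx : x ∉ Q) : ‖φ (x : E)‖ = 1 := by
  refine le_antisymm (norm_le_one_of_ringOfIntegers φ x) ?_
  rw [← not_lt, norm_lt_iff Q hQ φ hφ]
  exact hx

theorem nat_notin (Q : Ideal (𝓞 E)) (hQ : Q.IsMaximal) (hpQ : (p : 𝓞 E) ∈ Q) (D : ℕ) (hD : ¬ p ∣ D) :
    (D : 𝓞 E) ∉ Q := by
  intro h
  have hc : Nat.Coprime p D := ((Fact.out : p.Prime).coprime_iff_not_dvd).2 hD
  obtain ⟨a, b, hab⟩ := Nat.isCoprime_iff_coprime.2 hc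
  have h1 : (a : 𝓞 E) * (p : 𝓞 E) + (b : 𝓞 E) * (D : 𝓞 E) = 1 := by
    have := congrArg (Int.cast : ℤ → 𝓞 E) hab
    push_cast at this
    exact this
  apply hQ.ne_top
  rw [Ideal.eq_top_iff_one, ← h1]
  exact Q.add_mem (Q.mul_mem_left _ hpQ) (Q.mul_mem_left _ h)

open Classical in
/-- the number that controls the primes which contain `x` -/
def nb (x : 𝓞 E) : ℕ := if x = 0 then 1 else Ideal.absNorm (Ideal.span {x})

theorem nb_ne (x : 𝓞 E) : nb x ≠ 0 := by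
  unfold nb
  split_ifs with h
  · exact one_ne_zero
  · rw [Ne, Ideal.absNorm_eq_zero_iff, Ideal.span_singleton_eq_bot]
    exact h

theorem nb_notin (Q : Ideal (𝓞 E)) (hQ : Q.IsMaximal) (hpQ : (p : 𝓞 E) ∈ Q) (x : 𝓞 E) (hx : x ≠ 0)
    (hp : ¬ p ∣ nb x) : x ∉ Q := by
  intro h
  unfold nb at hp
  rw [if_neg hx] at hp
  apply nat_notin Q hQ hpQ _ hp
  exact (Ideal.span_singleton_le_iff_mem Q).2 h (Ideal.absNorm_mem _)

/-- powers of the Frobenius element modulo `Q` -/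
theorem mk_pow {G : Type*} [Group G] [MulSemiringAction G (𝓞 E)] (Q : Ideal (𝓞 E)) (F : G)
    (hF : ∀ x : 𝓞 E, F • x - x ^ p ∈ Q) (m : ℕ) (x : 𝓞 E) :
    Ideal.Quotient.mk Q ((F ^ m) • x) = Ideal.Quotient.mk Q x ^ p ^ m := by
  induction m with
  | zero => simp
  | succ m ih =>
    rw [pow_succ', mul_smul]
    have h1 := (Ideal.Quotient.eq).2 (hF ((F ^ m) • x))
    rw [h1, map_pow, ih, ← pow_mul, pow_succ]

theorem charP_quot (Q : Ideal (𝓞 E)) (hQ : Q.IsMaximal) (hpQ : (p : 𝓞 E) ∈ Q) : CharP (𝓞 E ⧸ Q) p := by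
  have h1 : ((p : ℕ) : 𝓞 E ⧸ Q) = 0 := by
    have := (Ideal.Quotient.eq_zero_iff_mem).2 hpQ
    rwa [map_natCast] at this
  have hn : Nontrivial (𝓞 E ⧸ Q) := Ideal.Quotient.nontrivial_iff.2 hQ.ne_top
  obtain ⟨q, hq⟩ := CharP.exists (𝓞 E ⧸ Q)
  have h2 : q ∣ p := (CharP.cast_eq_zero_iff (𝓞 E ⧸ Q) q p).1 h1
  rcases (Nat.dvd_prime (Fact.out : p.Prime)).1 h2 with h3 | h3
  · subst h3
    exact absurd hq (fun h => CharP.char_ne_one (𝓞 E ⧸ Q) 1 rfl)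
  · subst h3
    exact hq

/-- the congruence for a number with a denominator -/
theorem cong_iff (Q : Ideal (𝓞 E)) (hQ : Q.IsMaximal) (hpQ : (p : 𝓞 E) ∈ Q) (φ : E →+* PadicAlgCl p)
    (hφ : ∀ x ∈ Q, ‖φ (x : 𝓞 E)‖ < 1) (x : E) (w : 𝓞 E) (D : ℕ) (hD : ¬ p ∣ D) (hw : (w : E) = (D : E) * x) (m : ℕ) :
    ‖φ x ^ p ^ m - φ x‖ < 1 ↔ Ideal.Quotient.mk Q w ^ p ^ m = Ideal.Quotient.mk Q w := by
  have hDQ := nat_notin Q hQ hpQ D hD
  have hDn : ‖φ (D : E)‖ = 1 := by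
    have := norm_eq_one Q hQ φ hφ (D : 𝓞 E) hDQ
    simpa using this
  have hcp := charP_quot Q hQ hpQ
  let _ : Field (𝓞 E ⧸ Q) := Ideal.Quotient.field Q
  have e1 : φ (((((D : 𝓞 E) * w ^ p ^ m - (D : 𝓞 E) ^ p ^ m * w : 𝓞 E)) : 𝓞 E) : E) =
      φ (D : E) ^ (p ^ m + 1) * (φ x ^ p ^ m - φ x) := by
    have h1 : ((((D : 𝓞 E) * w ^ p ^ m - (D : 𝓞 E) ^ p ^ m * w : 𝓞 E)) : E) =
        (D : E) ^ (p ^ m + 1) * (x ^ p ^ m - x) := by
      have h2 : ((((D : 𝓞 E) * w ^ p ^ m - (D : 𝓞 E) ^ p ^ m * w : 𝓞 E)) : E) =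
          (D : E) * (w : E) ^ p ^ m - (D : E) ^ p ^ m * (w : E) := by
        simp
      rw [h2, hw]
      ring
    rw [h1]
    simp
  have e2 : ‖φ x ^ p ^ m - φ x‖ = ‖φ (((((D : 𝓞 E) * w ^ p ^ m - (D : 𝓞 E) ^ p ^ m * w : 𝓞 E)) : 𝓞 E) : E)‖ := by
    rw [e1, norm_mul, norm_pow, hDn, one_pow, one_mul]
  rw [e2, norm_lt_iff Q hQ φ hφ, ← Ideal.Quotient.eq_zero_iff_mem, map_sub, map_mul, map_mul, map_pow, map_pow,
    map_natCast, sub_eq_zero]
  have h3 : ((D : ℕ) : 𝓞 E ⧸ Q) ^ p ^ m = ((D : ℕ) : 𝓞 E ⧸ Q) := by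
    rw [← iterateFrobenius_def, map_natCast]
  have h4 : ((D : ℕ) : 𝓞 E ⧸ Q) ≠ 0 := by
    intro h
    apply hDQ
    rw [← Ideal.Quotient.eq_zero_iff_mem, map_natCast]
    exact h
  rw [h3]
  exact mul_right_inj' h4

end local'

/-- NF, with an isomorphism -/
theorem frob_equiv (σ : ℂ ≃+* ℂ) (Z : Finset ℂ) (hZ : ∀ z ∈ Z, IsAlgebraic ℚ z) (N₀ : ℕ) :
    ∃ (p : ℕ) (_ : Fact p.Prime) (τ : ℂ ≃+* PadicAlgCl p), N₀ < p ∧ Un (τ : ℂ →+* PadicAlgCl p) Z ∧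
      ∀ z ∈ Z, ∀ m : ℕ, ‖(τ z) ^ p ^ m - τ z‖ < 1 ↔ σ^[m] z = z := by
  classical
  -- the field
  set P : ℚ[X] := ∏ z ∈ Z, minpoly ℚ z with hP
  have hP0 : P ≠ 0 := Finset.prod_ne_zero_iff.2 fun z hz => minpoly.ne_zero (hZ z hz).isIntegral
  set E : IntermediateField ℚ ℂ := IntermediateField.adjoin ℚ (P.rootSet ℂ) with hE
  have hsp : IsSplittingField ℚ E P :=
    IntermediateField.adjoin_rootSet_isSplittingField (IsAlgClosed.splits _)
  have hfd : FiniteDimensional ℚ E := IsSplittingField.finiteDimensional E P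
  have hnf : NumberField E := NumberField.mk
  have hnorm : Normal ℚ E := Normal.of_isSplittingField P
  have hgal : IsGalois ℚ E := IsGalois.mk
  have hZE : ∀ z ∈ Z, z ∈ E := by
    intro z hz
    apply IntermediateField.subset_adjoin
    rw [mem_rootSet]
    refine ⟨hP0, ?_⟩
    rw [hP, map_prod]
    exact Finset.prod_eq_zero hz (minpoly.aeval ℚ z)
  -- the automorphism
  let σq : ℂ ≃ₐ[ℚ] ℂ := AlgEquiv.ofRingEquiv (f := σ) fun q => by simp
  let g0 : E ≃ₐ[ℚ] E := σq.restrictNormal E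
  have hg0 : ∀ x : E, ((g0 x : E) : ℂ) = σ (x : ℂ) := fun x => AlgEquiv.restrictNormal_commutes σq E x
  let M : IntermediateField ℚ E := IntermediateField.fixedField (Subgroup.zpowers g0)
  have hMfix : M.fixingSubgroup = Subgroup.zpowers g0 := IntermediateField.fixingSubgroup_fixedField _
  have hg0M : g0 ∈ M.fixingSubgroup := by rw [hMfix]; exact Subgroup.mem_zpowers _
  let g : E ≃ₐ[M] E := IntermediateField.fixingSubgroupEquiv M ⟨g0, hg0M⟩
  have hg1 : ∀ x : E, g x = g0 x := fun x => rfl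
  have hgen : ∀ f : E ≃ₐ[M] E, f ∈ Subgroup.zpowers g := by
    intro f
    obtain ⟨⟨f0, hf0⟩, rfl⟩ := (IntermediateField.fixingSubgroupEquiv M).surjective f
    have h1 := hf0
    rw [hMfix, Subgroup.mem_zpowers_iff] at h1
    obtain ⟨z, hz⟩ := h1
    rw [Subgroup.mem_zpowers_iff]
    refine ⟨z, ?_⟩
    show (IntermediateField.fixingSubgroupEquiv M ⟨g0, hg0M⟩) ^ z = _
    rw [← map_zpow]
    congr 1
    exact Subtype.ext hz
  have hiter : ∀ (m : ℕ) (x : E), (((g ^ m) x : E) : ℂ) = σ^[m] (x : ℂ) := by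
    intro m
    induction m with
    | zero => intro x; rfl
    | succ m ih =>
      intro x
      rw [pow_succ', AlgEquiv.mul_apply, hg1, hg0, ih, Function.iterate_succ_apply']
  -- denominators
  choose Dn wn hDn hwn using fun x : E => int_scale x
  set ZE : Finset E := Z.attach.image fun z => (⟨z.1, hZE z.1 z.2⟩ : E) with hZEd
  have hmemZE : ∀ z (hz : z ∈ Z), (⟨z, hZE z hz⟩ : E) ∈ ZE := by
    intro z hz
    rw [hZEd, Finset.mem_image]
    exact ⟨⟨z, hz⟩, Finset.mem_attach _ _, rfl⟩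
  set n := orderOf g with hn
  have hnpos : 0 < n := orderOf_pos g
  set bad : ℕ := N₀.factorial * ((∏ x ∈ ZE, Dn x) * ((∏ x ∈ ZE, nb (wn x)) *
    ∏ x ∈ ZE, ∏ i ∈ Finset.range n, nb ((g ^ i) • wn x - wn x))) with hbad
  have hbad0 : bad ≠ 0 := by
    rw [hbad]
    refine mul_ne_zero (Nat.factorial_ne_zero _) (mul_ne_zero ?_ (mul_ne_zero ?_ ?_))
    · exact Finset.prod_ne_zero_iff.2 fun x _ => hDn x
    · exact Finset.prod_ne_zero_iff.2 fun x _ => nb_ne _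
    · exact Finset.prod_ne_zero_iff.2 fun x _ => Finset.prod_ne_zero_iff.2 fun i _ => nb_ne _
  obtain ⟨p, hp, Q, j, hpb, hQ, hpQ, hj, hF⟩ := core g hgen bad hbad0
  have hpb1 : ¬ p ∣ N₀.factorial := fun h => hpb (h.mul_right _)
  have hpb2 : ∀ x ∈ ZE, ¬ p ∣ Dn x := fun x hx h =>
    hpb (((h.trans (Finset.dvd_prod_of_mem _ hx)).mul_right _).mul_left _)
  have hpb3 : ∀ x ∈ ZE, ¬ p ∣ nb (wn x) := fun x hx h =>
    hpb ((((h.trans (Finset.dvd_prod_of_mem (fun x => nb (wn x)) hx)).mul_right _).mul_left _).mul_left _)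
  have hpb4 : ∀ x ∈ ZE, ∀ i ∈ Finset.range n, ¬ p ∣ nb ((g ^ i) • wn x - wn x) := fun x hx i hi h =>
    hpb (((((h.trans (Finset.dvd_prod_of_mem (fun i => nb ((g ^ i) • wn x - wn x)) hi)).trans
      (Finset.dvd_prod_of_mem (fun x => ∏ i ∈ Finset.range n, nb ((g ^ i) • wn x - wn x)) hx)).mul_left _).mul_left
        _).mul_left _)
  obtain ⟨φ, hφ⟩ := exists_embedding (p := p) Q hQ hpQ
  have hcount : Countable E := (Module.finBasis ℚ E).equivFun.injective.countable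
  obtain ⟨τ, hτ⟩ := exists_iso_ext (algebraMap E ℂ) φ
  refine ⟨p, hp, τ, ?_, ?_, ?_⟩
  · by_contra hle
    rw [not_lt] at hle
    exact hpb1 ((hp.out.dvd_factorial).2 hle)
  · intro z hz
    set x : E := ⟨z, hZE z hz⟩ with hx
    have hxZ : x ∈ ZE := hmemZE z hz
    have hτz : τ z = φ x := hτ x
    have hDQ := nat_notin Q hQ hpQ (Dn x) (hpb2 x hxZ)
    have hD1 : ‖φ (Dn x : E)‖ = 1 := by
      have := norm_eq_one Q hQ φ hφ (Dn x : 𝓞 E) hDQ
      simpa using this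
    have hnx : ‖φ (wn x : E)‖ = ‖φ x‖ := by
      rw [hwn, map_mul, norm_mul, hD1, one_mul]
    have hτz' : (τ : ℂ →+* PadicAlgCl p) z = φ x := hτz
    rw [hτz', ← hnx]
    refine ⟨norm_le_one_of_ringOfIntegers φ _, fun hz0 => ?_⟩
    apply norm_eq_one Q hQ φ hφ
    apply nb_notin Q hQ hpQ _ _ (hpb3 x hxZ)
    intro h0
    have h1 := hwn x
    rw [h0] at h1
    have h2 : ((Dn x : ℕ) : E) * x = 0 := by
      rw [← h1]
      rfl
    rcases mul_eq_zero.1 h2 with h3 | h3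
    · exact hDn x (by exact_mod_cast h3)
    · apply hz0
      have := congrArg (fun y : E => (y : ℂ)) h3
      exact this
  · intro z hz m
    set x : E := ⟨z, hZE z hz⟩ with hx
    have hxZ : x ∈ ZE := hmemZE z hz
    have hτz' : τ z = φ x := hτ x
    rw [hτz', cong_iff Q hQ hpQ φ hφ x (wn x) (Dn x) (hpb2 x hxZ) (hwn x) m, ← mk_pow Q (g ^ j) hF m (wn x)]
    have hzx : σ^[m] z = z ↔ (g ^ m) x = x := by
      have h1 := hiter m x
      have h2 : ((x : E) : ℂ) = z := rfl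
      rw [h2] at h1
      rw [← h1]
      constructor
      · intro h
        exact Subtype.ext h
      · intro h
        rw [h]
    rw [hzx]
    have hxw : ∀ f : E ≃ₐ[M] E, f • wn x = wn x ↔ f x = x := by
      intro f
      have h1 : ((f • wn x : 𝓞 E) : E) = f ((wn x : 𝓞 E) : E) := rfl
      have h2 : f ((wn x : 𝓞 E) : E) = (Dn x : E) * f x := by
        rw [hwn, map_mul, map_natCast]
      constructor
      · intro h
        have h3 : ((f • wn x : 𝓞 E) : E) = (wn x : E) := by rw [h]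
        rw [h1, h2, hwn] at h3
        exact mul_left_cancel₀ (Nat.cast_ne_zero.2 (hDn x)) h3
      · intro h
        apply RingOfIntegers.ext
        rw [h1, h2, hwn, h]
    have hstep : Ideal.Quotient.mk Q (((g ^ j) ^ m) • wn x) = Ideal.Quotient.mk Q (wn x) ↔
        ((g ^ j) ^ m) x = x := by
      rw [Ideal.Quotient.eq, ← hxw]
      constructor
      · intro h
        by_contra hne
        have h1 : (g ^ j) ^ m = g ^ (j * m % n) := by
          rw [← pow_mul, hn, pow_mod_orderOf]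
        rw [h1] at h hne
        exact nb_notin Q hQ hpQ _ (sub_ne_zero.2 hne)
          (hpb4 x hxZ _ (Finset.mem_range.2 (Nat.mod_lt _ hnpos))) h
      · intro h
        rw [h, sub_self]
        exact Q.zero_mem
    rw [hstep]
    have hst : ∀ f : E ≃ₐ[M] E, f x = x ↔ f ∈ MulAction.stabilizer (E ≃ₐ[M] E) x := fun f => Iff.rfl
    rw [hst, hst]
    constructor
    · intro h
      have h1 : (g ^ m) ^ j ∈ MulAction.stabilizer (E ≃ₐ[M] E) x := by
        rwa [← pow_mul, mul_comm, pow_mul]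
      have h2 : Nat.Coprime j (orderOf (g ^ m)) := hj.coprime_dvd_right (orderOf_pow_dvd m)
      obtain ⟨t, ht⟩ := exists_pow_eq_self_of_coprime h2
      rw [← ht]
      exact Subgroup.pow_mem _ h1 t
    · intro h
      rw [← pow_mul, mul_comm, pow_mul]
      exact Subgroup.pow_mem _ h j

/-- NF -/
theorem frob (σ : ℂ ≃+* ℂ) (Z : Finset ℂ) (hZ : ∀ z ∈ Z, IsAlgebraic ℚ z) (N₀ : ℕ) :
    ∃ (p : ℕ) (_ : Fact p.Prime) (τ : ℂ →+* PadicAlgCl p), N₀ < p ∧ Un τ Z ∧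
      ∀ z ∈ Z, ∀ m : ℕ, ‖(τ z) ^ p ^ m - τ z‖ < 1 ↔ σ^[m] z = z := by
  obtain ⟨p, hp, τ, h1, h2, h3⟩ := frob_equiv σ Z hZ N₀
  exact ⟨p, hp, (τ : ℂ →+* PadicAlgCl p), h1, h2, h3⟩

end

end Pool.Agent.Helper53.OB
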