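import Pool.Agent.Helper87.FK.Emb
import Pool.Agent.Helper87.FK.Iso
import Pool.Agent.Helper26.OB.Defs
import Pool.Agent.Helper95.OB.Teq
import Pool.Agent.Helper86.OB.Emb

/-!
# OB, block CE: Cassels' embedding
-/

set_option autoImplicit false

open Polynomial

namespace Pool.Agent.Helper53.OB

open Pool.Agent.Helper87.FK Pool.Agent.Helper26.OB

noncomputable section

section clear

variable {K : Type*} [Field K] [CharZero K] {r : ℕ}

/-- clearing the denominators of a polynomial over a field of rational numbers -/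
theorem clr (hK : ∀ a : K, ∃ (D : ℕ) (m : ℤ), D ≠ 0 ∧ (D : K) * a = m) (q : MvPolynomial (Fin r) K) :
    ∃ (D : ℕ) (Q : MvPolynomial (Fin r) ℤ), D ≠ 0 ∧
      MvPolynomial.map (Int.castRingHom K) Q = MvPolynomial.C (D : K) * q := by
  induction q using MvPolynomial.induction_on with
  | C a =>
    obtain ⟨D, m, hD, h⟩ := hK a
    refine ⟨D, MvPolynomial.C m, hD, ?_⟩
    rw [MvPolynomial.map_C, ← MvPolynomial.C_mul, h]
    rfl
  | add q₁ q₂ h₁ h₂ =>
    obtain ⟨D₁, Q₁, hD₁, h₁⟩ := h₁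
    obtain ⟨D₂, Q₂, hD₂, h₂⟩ := h₂
    refine ⟨D₁ * D₂, MvPolynomial.C (D₂ : ℤ) * Q₁ + MvPolynomial.C (D₁ : ℤ) * Q₂, mul_ne_zero hD₁ hD₂, ?_⟩
    rw [map_add, map_mul, map_mul, h₁, h₂, MvPolynomial.map_C, MvPolynomial.map_C]
    simp only [Int.coe_castRingHom, Int.cast_natCast, Nat.cast_mul, MvPolynomial.C_mul]
    ring
  | mul_X q i h =>
    obtain ⟨D, Q, hD, h⟩ := h
    refine ⟨D, Q * MvPolynomial.X i, hD, ?_⟩
    rw [map_mul, h, MvPolynomial.map_X, mul_assoc]

theorem clr_fin (hK : ∀ a : K, ∃ (D : ℕ) (m : ℤ), D ≠ 0 ∧ (D : K) * a = m) (q : ℕ → MvPolynomial (Fin r) K) (N : ℕ) :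
    ∃ (D : ℕ) (Q : ℕ → MvPolynomial (Fin r) ℤ), D ≠ 0 ∧ ∀ i < N,
      MvPolynomial.map (Int.castRingHom K) (Q i) = MvPolynomial.C (D : K) * q i := by
  induction N with
  | zero => exact ⟨1, fun _ => 0, one_ne_zero, fun i hi => absurd hi (Nat.not_lt_zero i)⟩
  | succ N ih =>
    obtain ⟨D, Q, hD, h⟩ := ih
    obtain ⟨D', Q', hD', h'⟩ := clr hK (q N)
    refine ⟨D * D', fun i => if i = N then MvPolynomial.C (D : ℤ) * Q' else MvPolynomial.C (D' : ℤ) * Q i,
      mul_ne_zero hD hD', fun i hi => ?_⟩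
    by_cases hiN : i = N
    · subst hiN
      dsimp only
      rw [if_pos rfl, map_mul, h', MvPolynomial.map_C]
      simp only [Int.coe_castRingHom, Int.cast_natCast, Nat.cast_mul, MvPolynomial.C_mul]
      ring
    · dsimp only
      rw [if_neg hiN, map_mul, h i (by omega), MvPolynomial.map_C]
      simp only [Int.coe_castRingHom, Int.cast_natCast, Nat.cast_mul, MvPolynomial.C_mul]
      ring

/-- an equation over `ℤ[t]` -/
theorem int_eq {L : Type*} [Field L] [Algebra K L] (hK : ∀ a : K, ∃ (D : ℕ) (m : ℤ), D ≠ 0 ∧ (D : K) * a = m)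
    (t : Fin r → L) (ht : AlgebraicIndependent K t) (y : L) (hy : IsAlgebraic (Algebra.adjoin K (Set.range t)) y) :
    ∃ (n : ℕ) (Q : ℕ → MvPolynomial (Fin r) ℤ), Q n ≠ 0 ∧
      ∑ i ∈ Finset.range (n + 1), MvPolynomial.aeval t (Q i) * y ^ i = 0 := by
  obtain ⟨p, hp0, hp⟩ := hy
  set e := ht.aevalEquiv with he
  obtain ⟨D, Q, hD, hQ⟩ := clr_fin hK (fun i => e.symm (p.coeff i)) (p.natDegree + 1)
  have hDK : (D : K) ≠ 0 := Nat.cast_ne_zero.2 hD
  have hav : ∀ i < p.natDegree + 1, MvPolynomial.aeval t (Q i) = (algebraMap K L D) * ((p.coeff i : Algebra.adjoin K (Set.range t)) : L) := by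
    intro i hi
    have h1 : MvPolynomial.aeval t (Q i) = MvPolynomial.aeval t (MvPolynomial.map (Int.castRingHom K) (Q i)) := by
      rw [MvPolynomial.aeval_def, MvPolynomial.aeval_def, MvPolynomial.eval₂_map]
      congr 1
      exact RingHom.ext_int _ _
    have h2 : ((p.coeff i : Algebra.adjoin K (Set.range t)) : L) = MvPolynomial.aeval t (e.symm (p.coeff i)) := by
      rw [← ht.algebraMap_aevalEquiv, ← he]
      simp
    rw [h1, hQ i hi, map_mul, MvPolynomial.aeval_C, h2]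
  refine ⟨p.natDegree, Q, ?_, ?_⟩
  · intro h0
    have h1 := hQ p.natDegree (Nat.lt_succ_self _)
    rw [h0, map_zero] at h1
    have h2 : e.symm (p.coeff p.natDegree) = 0 := by
      rcases mul_eq_zero.1 h1.symm with h | h
      · exact absurd (MvPolynomial.C_eq_zero.1 h) hDK
      · exact h
    have h3 : p.coeff p.natDegree = 0 := by
      have := congrArg e h2
      simpa using this
    rw [coeff_natDegree] at h3
    exact hp0 (leadingCoeff_eq_zero.1 h3)
  · have h4 : (0 : L) = ∑ i ∈ Finset.range (p.natDegree + 1), ((p.coeff i : Algebra.adjoin K (Set.range t)) : L) * y ^ i := by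
      rw [← hp, aeval_eq_sum_range]
      refine Finset.sum_congr rfl fun i _ => ?_
      rw [Algebra.smul_def]; rfl
    have h5 : ∑ i ∈ Finset.range (p.natDegree + 1), MvPolynomial.aeval t (Q i) * y ^ i =
        (algebraMap K L D) * ∑ i ∈ Finset.range (p.natDegree + 1), ((p.coeff i : Algebra.adjoin K (Set.range t)) : L) * y ^ i := by
      rw [Finset.mul_sum]
      refine Finset.sum_congr rfl fun i hi => ?_
      rw [hav i (Finset.mem_range.1 hi), mul_assoc]
    rw [h5, ← h4, mul_zero]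

end clear

section padic

variable {p : ℕ} [Fact p.Prime] {r : ℕ}

theorem int_le (m : ℤ) : ‖(m : PadicAlgCl p)‖ ≤ 1 := by
  apply norm_le_one_of_isIntegral
  have h := isIntegral_algebraMap (R := ℤ_[p]) (A := PadicAlgCl p) (x := (m : ℤ_[p]))
  rwa [map_intCast] at h

theorem norm_p_lt : ‖(p : PadicAlgCl p)‖ < 1 := by
  have h := p_mem_mm (p := p)
  exact h

theorem int_eq_one (m : ℤ) (hm : ¬ (p : ℤ) ∣ m) : ‖(m : PadicAlgCl p)‖ = 1 := by
  refine le_antisymm (int_le m) ?_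
  by_contra hlt
  rw [not_le] at hlt
  have hc : IsCoprime (p : ℤ) m := (Prime.coprime_iff_not_dvd (Nat.prime_iff_prime_int.1 (Fact.out : p.Prime))).2 hm
  obtain ⟨a, b, hab⟩ := hc
  have h1 : (a : PadicAlgCl p) * (p : PadicAlgCl p) + (b : PadicAlgCl p) * (m : PadicAlgCl p) = 1 := by
    have := congrArg (Int.cast : ℤ → PadicAlgCl p) hab
    push_cast at this
    exact this
  have h2 : ‖(a : PadicAlgCl p) * (p : PadicAlgCl p)‖ < 1 := by
    rw [norm_mul]
    calc ‖(a : PadicAlgCl p)‖ * ‖(p : PadicAlgCl p)‖ ≤ 1 * ‖(p : PadicAlgCl p)‖ := by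
          gcongr
          exact int_le a
      _ < 1 := by rw [one_mul]; exact norm_p_lt
  have h3 : ‖(b : PadicAlgCl p) * (m : PadicAlgCl p)‖ < 1 := by
    rw [norm_mul]
    calc ‖(b : PadicAlgCl p)‖ * ‖(m : PadicAlgCl p)‖ ≤ 1 * ‖(m : PadicAlgCl p)‖ := by
          gcongr
          exact int_le b
      _ < 1 := by rw [one_mul]; exact hlt
  have h4 := lt_of_le_of_lt (IsUltrametricDist.norm_add_le_max ((a : PadicAlgCl p) * (p : PadicAlgCl p))
    ((b : PadicAlgCl p) * (m : PadicAlgCl p))) (max_lt h2 h3)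
  rw [h1, norm_one] at h4
  exact lt_irrefl _ h4

/-- a root of a polynomial with integral coefficients, the leading one a unit -/
theorem root_le (n : ℕ) (a : ℕ → PadicAlgCl p) (ha : ∀ i < n, ‖a i‖ ≤ 1) (han : ‖a n‖ = 1) (y : PadicAlgCl p)
    (h : ∑ i ∈ Finset.range (n + 1), a i * y ^ i = 0) : ‖y‖ ≤ 1 := by
  by_contra hy
  rw [not_le] at hy
  rw [Finset.sum_range_succ] at h
  have h1 : ‖a n * y ^ n‖ = ‖y‖ ^ n := by rw [norm_mul, han, one_mul, norm_pow]
  have h2 : a n * y ^ n = -∑ i ∈ Finset.range n, a i * y ^ i := by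
    rw [eq_neg_iff_add_eq_zero, add_comm]
    exact h
  rw [h2, norm_neg] at h1
  rcases Nat.eq_zero_or_pos n with rfl | hn
  · simp at h1
  · have h3 : ‖∑ i ∈ Finset.range n, a i * y ^ i‖ ≤ ‖y‖ ^ (n - 1) := by
      refine IsUltrametricDist.norm_sum_le_of_forall_le_of_nonneg (by positivity) fun i hi => ?_
      rw [norm_mul, norm_pow]
      have hi' := Finset.mem_range.1 hi
      calc ‖a i‖ * ‖y‖ ^ i ≤ 1 * ‖y‖ ^ i := by
            gcongr
            exact ha i hi'
        _ = ‖y‖ ^ i := one_mul _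
        _ ≤ ‖y‖ ^ (n - 1) := pow_le_pow_right₀ hy.le (by omega)
    rw [h1] at h3
    have h4 : ‖y‖ ^ (n - 1) < ‖y‖ ^ n := pow_lt_pow_right₀ hy (by omega)
    exact absurd h3 (not_le.2 h4)

/-- values of integral polynomials at congruent points -/
theorem val_cong (s s' : Fin r → PadicAlgCl p) (hs : ∀ j, ‖s j‖ ≤ 1) (hs' : ∀ j, ‖s' j‖ ≤ 1)
    (hss : ∀ j, ‖s j - s' j‖ < 1) (Q : MvPolynomial (Fin r) ℤ) :
    ‖MvPolynomial.aeval s Q‖ ≤ 1 ∧ ‖MvPolynomial.aeval s' Q‖ ≤ 1 ∧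
      ‖MvPolynomial.aeval s Q - MvPolynomial.aeval s' Q‖ < 1 := by
  induction Q using MvPolynomial.induction_on with
  | C a =>
    rw [MvPolynomial.aeval_C, MvPolynomial.aeval_C, sub_self, norm_zero]
    exact ⟨int_le a, int_le a, one_pos⟩
  | add q₁ q₂ h₁ h₂ =>
    rw [map_add, map_add]
    refine ⟨(IsUltrametricDist.norm_add_le_max _ _).trans (max_le h₁.1 h₂.1),
      (IsUltrametricDist.norm_add_le_max _ _).trans (max_le h₁.2.1 h₂.2.1), ?_⟩
    have e : MvPolynomial.aeval s q₁ + MvPolynomial.aeval s q₂ - (MvPolynomial.aeval s' q₁ + MvPolynomial.aeval s' q₂) =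
      (MvPolynomial.aeval s q₁ - MvPolynomial.aeval s' q₁) + (MvPolynomial.aeval s q₂ - MvPolynomial.aeval s' q₂) := by ring
    rw [e]
    exact (IsUltrametricDist.norm_add_le_max _ _).trans_lt (max_lt h₁.2.2 h₂.2.2)
  | mul_X q i h =>
    rw [map_mul, map_mul, MvPolynomial.aeval_X, MvPolynomial.aeval_X]
    refine ⟨?_, ?_, ?_⟩
    · rw [norm_mul]
      exact mul_le_one₀ h.1 (norm_nonneg _) (hs i)
    · rw [norm_mul]
      exact mul_le_one₀ h.2.1 (norm_nonneg _) (hs' i)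
    · have e : MvPolynomial.aeval s q * s i - MvPolynomial.aeval s' q * s' i =
        (MvPolynomial.aeval s q - MvPolynomial.aeval s' q) * s i + MvPolynomial.aeval s' q * (s i - s' i) := by ring
      rw [e]
      refine (IsUltrametricDist.norm_add_le_max _ _).trans_lt (max_lt ?_ ?_)
      · rw [norm_mul]
        calc ‖MvPolynomial.aeval s q - MvPolynomial.aeval s' q‖ * ‖s i‖
            ≤ ‖MvPolynomial.aeval s q - MvPolynomial.aeval s' q‖ * 1 := by
              gcongr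
              exact hs i
          _ < 1 := by rw [mul_one]; exact h.2.2
      · rw [norm_mul]
        calc ‖MvPolynomial.aeval s' q‖ * ‖s i - s' i‖ ≤ 1 * ‖s i - s' i‖ := by
              gcongr
              exact h.2.1
          _ < 1 := by rw [one_mul]; exact hss i

end padic

/-- **CE** -/
theorem cassels (Z : Finset ℂ) (N₀ : ℕ) :
    ∃ (p : ℕ) (_ : Fact p.Prime) (τ : ℂ →+* PadicAlgCl p), N₀ < p ∧ Un τ Z := by
  classical
  set Y : Finset ℂ := Z ∪ Z.image fun z => z⁻¹ with hY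
  have hbot : ∀ a : (⊥ : Subfield ℂ), ∃ q : ℚ, (q : ℂ) = a := by
    rintro ⟨a, h1⟩
    rw [Subfield.bot_eq_of_charZero] at h1
    obtain ⟨q, hq⟩ := h1
    exact ⟨q, by simpa using hq⟩
  have hK : ∀ a : (⊥ : Subfield ℂ), ∃ (D : ℕ) (m : ℤ), D ≠ 0 ∧ (D : (⊥ : Subfield ℂ)) * a = m := by
    intro a
    obtain ⟨q, hq⟩ := hbot a
    refine ⟨q.den, q.num, q.den_nz, ?_⟩
    apply Subtype.ext
    push_cast
    rw [← hq]
    exact_mod_cast Rat.den_mul_eq_num q
  obtain ⟨r, t, ht, hyt⟩ := Pool.Agent.Helper95.OB.basis (K := (⊥ : Subfield ℂ)) Y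
  choose! n Q hQ0 hQ using fun (y : ℂ) (hy : y ∈ Y) => int_eq hK t ht y (hyt y hy)
  set G : MvPolynomial (Fin r) ℤ := ∏ y ∈ Y, Q y (n y) with hG
  have hG0 : G ≠ 0 := Finset.prod_ne_zero_iff.2 hQ0
  obtain ⟨θ, hθ⟩ : ∃ θ : Fin r → ℤ, MvPolynomial.eval θ G ≠ 0 := by
    by_contra hc
    push Not at hc
    exact hG0 (MvPolynomial.funext fun x => by rw [hc x, map_zero])
  obtain ⟨p, hpN, hp⟩ := Nat.exists_infinite_primes (max N₀ (MvPolynomial.eval θ G).natAbs + 1)
  have hfp : Fact p.Prime := ⟨hp⟩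
  have hpG : ¬ (p : ℤ) ∣ MvPolynomial.eval θ G := by
    intro hd
    have h1 := Nat.le_of_dvd (Int.natAbs_pos.2 hθ) (Int.natCast_dvd.1 hd)
    have h2 := le_max_right N₀ (MvPolynomial.eval θ G).natAbs
    omega
  obtain ⟨τ₀, -⟩ := exists_iso_ext (p := p) (algebraMap ℚ ℂ) (algebraMap ℚ (PadicAlgCl p))
  have hcount : (((⊥ : Subfield ℂ) : Set ℂ)).Countable := by
    have h1 : (((⊥ : Subfield ℂ) : Set ℂ)) ⊆ Set.range fun q : ℚ => (q : ℂ) := by
      intro z hz
      obtain ⟨q, hq⟩ := hbot ⟨z, hz⟩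
      exact ⟨q, hq⟩
    exact (Set.countable_range _).mono h1
  obtain ⟨τ, -, hτ⟩ := Pool.Agent.Helper26.OB.emb p ⊥ hcount (τ₀ : ℂ →+* PadicAlgCl p) t ht
    (fun j => ((θ j : ℤ) : PadicAlgCl p))
  set s : Fin r → PadicAlgCl p := fun j => τ (t j) with hs
  have hs' : ∀ j, ‖((θ j : ℤ) : PadicAlgCl p)‖ ≤ 1 := fun j => int_le _
  have hs1 : ∀ j, ‖s j‖ ≤ 1 := by
    intro j
    have e : s j = (s j - ((θ j : ℤ) : PadicAlgCl p)) + ((θ j : ℤ) : PadicAlgCl p) := by ring
    rw [e]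
    exact (IsUltrametricDist.norm_add_le_max _ _).trans (max_le (hτ j).le (hs' j))
  have hval := fun P : MvPolynomial (Fin r) ℤ => val_cong s (fun j => ((θ j : ℤ) : PadicAlgCl p)) hs1 hs' hτ P
  have hτP : ∀ P : MvPolynomial (Fin r) ℤ, τ (MvPolynomial.aeval t P) = MvPolynomial.aeval s P := by
    intro P
    exact MvPolynomial.comp_aeval_apply t τ.toIntAlgHom P
  have hθP : ∀ P : MvPolynomial (Fin r) ℤ, MvPolynomial.aeval (fun j => ((θ j : ℤ) : PadicAlgCl p)) P =
      ((MvPolynomial.eval θ P : ℤ) : PadicAlgCl p) := by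
    intro P
    have h1 := MvPolynomial.eval₂_comp_left (Int.castRingHom (PadicAlgCl p)) (RingHom.id ℤ) θ P
    rw [MvPolynomial.aeval_def]
    have h2 : (algebraMap ℤ (PadicAlgCl p)) = (Int.castRingHom (PadicAlgCl p)).comp (RingHom.id ℤ) := RingHom.ext_int _ _
    rw [h2]
    exact h1.symm
  have hle : ∀ y ∈ Y, ‖τ y‖ ≤ 1 := by
    intro y hy
    refine root_le (n y) (fun i => MvPolynomial.aeval s (Q y i)) (fun i _ => (hval _).1) ?_ (τ y) ?_
    · have h1 : ¬ (p : ℤ) ∣ MvPolynomial.eval θ (Q y (n y)) := by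
        intro hd
        apply hpG
        rw [hG, map_prod]
        exact hd.trans (Finset.dvd_prod_of_mem (fun y => MvPolynomial.eval θ (Q y (n y))) hy)
      have h2 := int_eq_one _ h1
      obtain ⟨h3, -, h4⟩ := hval (Q y (n y))
      rw [hθP] at h4
      refine le_antisymm h3 ?_
      by_contra hlt
      rw [not_le] at hlt
      have e : ((MvPolynomial.eval θ (Q y (n y)) : ℤ) : PadicAlgCl p) = MvPolynomial.aeval s (Q y (n y)) +
          (-(MvPolynomial.aeval s (Q y (n y)) - ((MvPolynomial.eval θ (Q y (n y)) : ℤ) : PadicAlgCl p))) := by ring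
      have h5 := (IsUltrametricDist.norm_add_le_max (MvPolynomial.aeval s (Q y (n y)))
        (-(MvPolynomial.aeval s (Q y (n y)) - ((MvPolynomial.eval θ (Q y (n y)) : ℤ) : PadicAlgCl p)))).trans_lt
        (max_lt hlt (by rw [norm_neg]; exact h4))
      rw [← e, h2] at h5
      exact lt_irrefl _ h5
    · have h1 := congrArg τ (hQ y hy)
      rw [map_sum, map_zero] at h1
      rw [← h1]
      refine Finset.sum_congr rfl fun i _ => ?_
      rw [map_mul, map_pow, hτP]
  refine ⟨p, hfp, τ, ?_, fun z hz => ⟨hle z (Finset.mem_union_left _ hz), fun hz0 => ?_⟩⟩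
  · have h2 := le_max_left N₀ (MvPolynomial.eval θ G).natAbs
    omega
  · have h1 := hle z (Finset.mem_union_left _ hz)
    have h2 := hle z⁻¹ (Finset.mem_union_right _ (Finset.mem_image_of_mem _ hz))
    rw [map_inv₀, norm_inv] at h2
    have h3 : τ z ≠ 0 := (map_ne_zero τ).2 hz0
    have h4 : 0 < ‖τ z‖ := norm_pos_iff.2 h3
    refine le_antisymm h1 ?_
    rwa [inv_le_one₀ h4] at h2

end

end Pool.Agent.Helper53.OB
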