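import Pool.Agent.Helper53.SCD.Final

/-!
# OB, block NF, part 1: a prime whose Frobenius element generates a cyclic Galois group
-/

set_option autoImplicit false

open NumberField Polynomial MulAction Filter Topology

open scoped Pointwise

namespace Pool.Agent.Helper53.OB

open Pool.Agent.H53SCD Pool.Agent.Helper70.Art

noncomputable section

/-- A prime of degree one without roots. -/
theorem exists_prime_free {M : Type} [Field M] [NumberField M] (L : Type) [Field L] [NumberField L] [Algebra M L]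
    [IsGalois M L] (h : (𝓞 M)[X]) (hm : h.Monic)
    (hs : ((h.map (algebraMap (𝓞 M) M)).map (algebraMap M L)).Splits)
    (hfree : ∃ g : L ≃ₐ[M] L, ∀ ω : Om L h, g • ω ≠ ω) (bad : ℕ) (hbad : bad ≠ 0) :
    ∃ (p : ℕ) (_ : Fact p.Prime) (ψ : 𝓞 M →+* ZMod p), ¬ p ∣ bad ∧ ∀ a, (h.map ψ).eval a ≠ 0 := by
  classical
  by_contra hno
  push Not at hno
  obtain ⟨δ, C₀, hδ, hev⟩ := Pool.Agent.H53SCD.SS_bound L h hm hs hfree bad hbad
  have hSS : Pool.Agent.H53SCD.SS M h bad = ∅ := by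
    rw [Set.eq_empty_iff_forall_notMem]
    rintro p ⟨hp, hpb, ψ, hψ⟩
    obtain ⟨a, ha⟩ := hno p ⟨hp⟩ ψ hpb
    exact hψ a ha
  rw [hSS] at hev
  have hlim : Tendsto (fun s : ℝ => δ * Real.log (1 / (s - 1)) - C₀) (𝓝[>] (1 : ℝ)) atTop := by
    refine tendsto_atTop_add_const_right _ _ (Tendsto.const_mul_atTop hδ ?_)
    refine Real.tendsto_log_atTop.comp ?_
    have h1 : Tendsto (fun s : ℝ => s - 1) (𝓝[>] (1 : ℝ)) (𝓝[>] (0 : ℝ)) := by
      rw [tendsto_nhdsWithin_iff]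
      refine ⟨?_, ?_⟩
      · have : Tendsto (fun s : ℝ => s - 1) (𝓝 (1 : ℝ)) (𝓝 (1 - 1)) :=
          (continuous_id.sub continuous_const).tendsto _
        rw [sub_self] at this
        exact this.mono_left nhdsWithin_le_nhds
      · filter_upwards [self_mem_nhdsWithin] with s hs
        exact Set.mem_Ioi.2 (sub_pos.2 (Set.mem_Ioi.1 hs))
    have h2 := tendsto_inv_nhdsGT_zero.comp h1
    refine h2.congr fun s => ?_
    rw [Function.comp_apply, one_div]
  obtain ⟨s, hs1, hs2⟩ := (hev.and (hlim.eventually_gt_atTop 0)).exists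
  simp only [Set.indicator_empty, tsum_zero] at hs1
  linarith

variable {M E : Type} [Field M] [NumberField M] [Field E] [NumberField E] [Algebra M E] [IsGalois M E]

/-- scaling to an integral element -/
theorem int_scale (x : E) : ∃ (D : ℕ) (w : 𝓞 E), D ≠ 0 ∧ (w : E) = (D : E) * x := by
  obtain ⟨y, hy, hint⟩ := exists_integral_multiples ℤ ℚ ({x} : Finset E)
  have h1 := hint x (Finset.mem_singleton_self x)
  obtain ⟨n, rfl | rfl⟩ := y.eq_nat_or_neg
  · rw [zsmul_eq_mul, Int.cast_natCast] at h1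
    exact ⟨n, ⟨(n : E) * x, h1⟩, fun h => hy (by rw [h]; rfl), rfl⟩
  · rw [zsmul_eq_mul, Int.cast_neg, Int.cast_natCast, neg_mul] at h1
    have h2 := h1.neg
    rw [neg_neg] at h2
    exact ⟨n, ⟨(n : E) * x, h2⟩, fun h => hy (by rw [h]; rfl), rfl⟩

/-- an integral element fixed by `g ^ r`, moved by `g` -/
theorem exists_theta (g : E ≃ₐ[M] E) (r : ℕ) (hr : r.Prime) (hrn : r ∣ orderOf g) :
    ∃ θ : 𝓞 E, (g ^ r) (θ : E) = θ ∧ g (θ : E) ≠ θ := by
  by_contra hno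
  push Not at hno
  have hfin : 0 < orderOf g := orderOf_pos g
  have hle : IntermediateField.fixedField (Subgroup.zpowers (g ^ r)) ≤
      IntermediateField.fixedField (Subgroup.zpowers g) := by
    intro x hx
    have h1 : (g ^ r) x = x := hx ⟨g ^ r, Subgroup.mem_zpowers _⟩
    obtain ⟨D, w, hD, hw⟩ := int_scale x
    have h2 := hno w (by rw [hw, map_mul, map_natCast, h1])
    rw [hw, map_mul, map_natCast] at h2
    have h3 : g x = x := mul_left_cancel₀ (Nat.cast_ne_zero.2 hD) h2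
    rintro ⟨f, hf⟩
    obtain ⟨z, rfl⟩ := Subgroup.mem_zpowers_iff.1 hf
    have h4 : g ∈ MulAction.stabilizer (E ≃ₐ[M] E) x := h3
    exact (MulAction.stabilizer (E ≃ₐ[M] E) x).zpow_mem h4 z
  have h5 : Subgroup.zpowers g ≤ Subgroup.zpowers (g ^ r) := by
    have h6 := IntermediateField.fixingSubgroup_le hle
    rwa [IntermediateField.fixingSubgroup_fixedField, IntermediateField.fixingSubgroup_fixedField] at h6
  have h7 : orderOf g ∣ orderOf (g ^ r) := by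
    have h8 : g ∈ Subgroup.zpowers (g ^ r) := h5 (Subgroup.mem_zpowers g)
    exact orderOf_dvd_of_mem_zpowers h8
  rw [orderOf_pow_of_dvd hr.ne_zero hrn] at h7
  have h9 := Nat.le_of_dvd (Nat.div_pos (Nat.le_of_dvd hfin hrn) hr.pos) h7
  have h10 : orderOf g / r < orderOf g := Nat.div_lt_self hfin hr.one_lt
  omega

/-- **The prime.** -/
theorem core (g : E ≃ₐ[M] E) (hg : ∀ f : E ≃ₐ[M] E, f ∈ Subgroup.zpowers g) (bad : ℕ) (hbad : bad ≠ 0) :
    ∃ (p : ℕ) (_ : Fact p.Prime) (Q : Ideal (𝓞 E)) (j : ℕ), ¬ p ∣ bad ∧ Q.IsMaximal ∧ (p : 𝓞 E) ∈ Q ∧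
      Nat.Coprime j (orderOf g) ∧ ∀ x : 𝓞 E, (g ^ j) • x - x ^ p ∈ Q := by
  classical
  have hfin : 0 < orderOf g := orderOf_pos g
  choose! θ hθ1 hθ2 using fun (r : ℕ) (hr : r ∈ (orderOf g).primeFactors) =>
    exists_theta g r (Nat.prime_of_mem_primeFactors hr) (Nat.dvd_of_mem_primeFactors hr)
  have hint : ∀ x : 𝓞 E, IsIntegral (𝓞 M) x := fun x => Algebra.IsIntegral.isIntegral x
  set h : (𝓞 M)[X] := ∏ r ∈ (orderOf g).primeFactors, minpoly (𝓞 M) (θ r) with hh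
  have hm : h.Monic := monic_prod_of_monic _ _ fun r _ => minpoly.monic (hint _)
  have hmin : ∀ x : 𝓞 E, minpoly M (x : E) = (minpoly (𝓞 M) x).map (algebraMap (𝓞 M) M) := fun x =>
    minpoly.isIntegrallyClosed_eq_field_fractions M E (hint x)
  have hs : ((h.map (algebraMap (𝓞 M) M)).map (algebraMap M E)).Splits := by
    rw [hh, Polynomial.map_prod, Polynomial.map_prod]
    refine Splits.prod fun r _ => ?_
    rw [← hmin]
    exact Normal.splits inferInstance _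
  have hfree : ∃ g : E ≃ₐ[M] E, ∀ ω : Om E h, g • ω ≠ ω := by
    refine ⟨g, fun ω hω => ?_⟩
    have h1 : eval₂ (algebraMap (𝓞 M) (𝓞 E)) (ω : 𝓞 E)
        (∏ r ∈ (orderOf g).primeFactors, minpoly (𝓞 M) (θ r)) = 0 := ω.2
    have h2 : g (((ω : 𝓞 E)) : E) = (((ω : 𝓞 E)) : E) :=
      congrArg (fun z : Om E h => ((z : 𝓞 E) : E)) hω
    rw [eval₂_finsetProd, Finset.prod_eq_zero_iff] at h1
    obtain ⟨r, hr, h3⟩ := h1
    have h4 : aeval (((ω : 𝓞 E)) : E) (minpoly M ((θ r : 𝓞 E) : E)) = 0 := by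
      rw [hmin, aeval_def, eval₂_map]
      have h5 := congrArg (algebraMap (𝓞 E) E) h3
      rw [Polynomial.hom_eval₂, map_zero] at h5
      exact h5
    have hirr : Irreducible (minpoly M ((θ r : 𝓞 E) : E)) := minpoly.irreducible (Algebra.IsIntegral.isIntegral _)
    have h6 : minpoly M ((θ r : 𝓞 E) : E) = minpoly M (((ω : 𝓞 E)) : E) :=
      minpoly.eq_of_irreducible_of_monic hirr h4 (minpoly.monic (Algebra.IsIntegral.isIntegral _))
    obtain ⟨f, hf⟩ := (Normal.minpoly_eq_iff_mem_orbit (F := M) (E := E)).1 h6.symm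
    obtain ⟨z, hz⟩ := Subgroup.mem_zpowers_iff.1 (hg f)
    have h7 : f ((θ r : 𝓞 E) : E) = (((ω : 𝓞 E)) : E) := hf
    have hcomm : g * f = f * g := by
      rw [← hz]
      exact (Commute.refl g).zpow_right z
    have h8 : f (g ((θ r : 𝓞 E) : E)) = f ((θ r : 𝓞 E) : E) := by
      have h9 := DFunLike.congr_fun hcomm ((θ r : 𝓞 E) : E)
      rw [AlgEquiv.mul_apply, AlgEquiv.mul_apply, h7, h2] at h9
      rw [← h9, h7]
    exact hθ2 r hr (f.injective h8)
  obtain ⟨p, hp, ψ, hpb, hψ⟩ := exists_prime_free E h hm hs hfree bad hbad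
  have hψs : Function.Surjective ψ := ZMod.ringHom_surjective ψ
  set P : Ideal (𝓞 M) := RingHom.ker ψ with hP
  have hPmax : P.IsMaximal := RingHom.ker_isMaximal_of_surjective ψ hψs
  have hcard : Nat.card (𝓞 M ⧸ P) = p := by
    rw [Nat.card_congr (RingHom.quotientKerEquivOfSurjective hψs).toEquiv, Nat.card_zmod]
  have hpP : (p : 𝓞 M) ∈ P := by
    rw [hP, RingHom.mem_ker, map_natCast, CharP.cast_eq_zero]
  have hP0 : P ≠ ⊥ := by
    intro h0
    rw [h0, Ideal.mem_bot] at hpP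
    exact hp.out.ne_zero (by exact_mod_cast hpP)
  obtain ⟨Q, hQmax, hQP⟩ := Ideal.exists_maximal_ideal_liesOver_of_isIntegral (S := 𝓞 E) P
  have hQ0 : Q ≠ ⊥ := by
    rintro rfl
    apply hP0
    rw [hQP.over]
    exact Ideal.comap_bot_of_injective _ (FaithfulSMul.algebraMap_injective (𝓞 M) (𝓞 E))
  have hfinQ : Finite (𝓞 E ⧸ Q) := Ideal.finiteQuotientOfFreeOfNeBot Q hQ0
  have hfinP : Finite (𝓞 M ⧸ P) := Ideal.finiteQuotientOfFreeOfNeBot P hP0
  obtain ⟨σ, hσ⟩ := IsArithFrobAt.exists_of_isInvariant (𝓞 M) (E ≃ₐ[M] E) Q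
  have hPQ : Q.under (𝓞 M) = P := hQP.over.symm
  have hσ' : ∀ x : 𝓞 E, σ • x - x ^ p ∈ Q := by
    intro x
    have h1 := hσ x
    rw [hPQ, hcard] at h1
    exact h1
  have hpQ : (p : 𝓞 E) ∈ Q := by
    have h1 : algebraMap (𝓞 M) (𝓞 E) (p : 𝓞 M) ∈ Q := by
      have h2 : (p : 𝓞 M) ∈ Q.under (𝓞 M) := by rw [hPQ]; exact hpP
      exact h2
    rwa [map_natCast] at h1
  obtain ⟨j, hj⟩ := (isOfFinOrder_of_finite g).mem_powers_iff_mem_zpowers.2 (hg σ)
  have hj : g ^ j = σ := hj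
  refine ⟨p, hp, Q, j, hpb, hQmax, hpQ, ?_, fun x => by rw [hj]; exact hσ' x⟩
  by_contra hnc
  obtain ⟨r, hr, hrj, hrn⟩ := Nat.Prime.not_coprime_iff_dvd.1 hnc
  have hrm : r ∈ (orderOf g).primeFactors := Nat.mem_primeFactors.2 ⟨hr, hrn, hfin.ne'⟩
  have h1 : σ • (θ r) = θ r := by
    apply RingOfIntegers.ext
    have h2 : σ ((θ r : 𝓞 E) : E) = (θ r : 𝓞 E) := by
      obtain ⟨t, rfl⟩ := hrj
      rw [← hj, pow_mul]
      have h3 : g ^ r ∈ MulAction.stabilizer (E ≃ₐ[M] E) ((θ r : 𝓞 E) : E) := hθ1 r hrm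
      exact (MulAction.stabilizer (E ≃ₐ[M] E) ((θ r : 𝓞 E) : E)).pow_mem h3 t
    exact h2
  have h2 := hσ' (θ r)
  rw [h1] at h2
  let _ : Field (𝓞 M ⧸ P) := Ideal.Quotient.field P
  let _ : Field (𝓞 E ⧸ Q) := Ideal.Quotient.field Q
  have h3 : (Ideal.Quotient.mk Q (θ r)) ^ Nat.card (𝓞 M ⧸ P) = Ideal.Quotient.mk Q (θ r) := by
    rw [← map_pow, hcard]
    exact ((Ideal.Quotient.eq).2 h2).symm
  obtain ⟨a, ha⟩ := mem_range_of_pow (algebraMap (𝓞 M ⧸ P) (𝓞 E ⧸ Q)) _ h3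
  obtain ⟨c, rfl⟩ := Ideal.Quotient.mk_surjective a
  rw [Ideal.Quotient.algebraMap_mk_of_liesOver] at ha
  have h4 : eval₂ (algebraMap (𝓞 M) (𝓞 E)) (θ r) h = 0 := by
    rw [hh, eval₂_finsetProd, Finset.prod_eq_zero_iff]
    exact ⟨r, hrm, minpoly.aeval (𝓞 M) (θ r)⟩
  have h5 := congrArg (Ideal.Quotient.mk Q) h4
  rw [Polynomial.hom_eval₂, map_zero, ← ha, ← Polynomial.hom_eval₂, eval₂_at_apply] at h5
  rw [Ideal.Quotient.eq_zero_iff_mem] at h5
  have h6 : eval c h ∈ P := (Ideal.mem_of_liesOver Q P _).2 h5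
  rw [hP, RingHom.mem_ker] at h6
  apply hψ (ψ c)
  rw [eval_map, eval₂_at_apply]
  exact h6

end

end Pool.Agent.Helper53.OB
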